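import Mathlib
import Pool.Agent.Helper35.MS.StH

/-!
Module FIN of project MS: finite time, back to the sphere.
-/

set_option autoImplicit false

namespace Helper7.MS

open Helper35.MS Helper35.PI Helper35.PI2 Helper32.CL
open scoped ContDiff Manifold Topology ENNReal BigOperators
open MeasureTheory Set Filter

theorem one_sub_sgT (t : ℝ) : 1 - 4 * sgT t = Real.exp (-4 * t) := by
  unfold sgT
  ring

theorem tmS_sgT (t : ℝ) : tmS (sgT t) = t := by
  unfold tmS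
  rw [one_sub_sgT, Real.log_exp]
  ring

theorem sgT_lt {s t : ℝ} : sgT s < sgT t ↔ s < t := by
  unfold sgT
  constructor
  · intro h
    by_contra hcon
    push Not at hcon
    have : Real.exp (-4 * s) ≤ Real.exp (-4 * t) := Real.exp_le_exp.2 (by linarith)
    linarith
  · intro h
    have : Real.exp (-4 * t) < Real.exp (-4 * s) := Real.exp_lt_exp.2 (by linarith)
    linarith

theorem sgT_zero : sgT 0 = 0 := by
  unfold sgT
  simp

theorem IS_sgT (T : ℝ) : IS (sgT T) = Ico 0 T := by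
  ext t
  unfold IS
  rw [mem_setOf_eq, mem_Ico, sgT_lt]

theorem fin_d (t T : ℝ) (h0 : 0 ≤ t) (h : t ≤ T) :
    Real.exp (-4 * t) * (T - t) ≤ (1 + 4 * (T - t)) * (sgT T - sgT t) ∧
    sgT T - sgT t ≤ Real.exp (-4 * t) * (T - t) ∧ sgT T - sgT t ≤ T - t ∧
    0 ≤ sgT T - sgT t := by
  set u : ℝ := T - t with hu
  have hu0 : 0 ≤ u := by linarith
  have e1 : sgT T - sgT t = Real.exp (-4 * t) * ((1 - Real.exp (-(4 * u))) / 4) := by
    unfold sgT
    have : Real.exp (-4 * T) = Real.exp (-4 * t) * Real.exp (-(4 * u)) := by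
      rw [← Real.exp_add]
      congr 1
      rw [hu]
      ring
    rw [this]
    ring
  have e2 : (1 - Real.exp (-(4 * u))) / 4 ≤ u := by
    have := Real.add_one_le_exp (-(4 * u))
    linarith
  have e3 : u ≤ (1 + 4 * u) * ((1 - Real.exp (-(4 * u))) / 4) := by
    have h1 := Real.add_one_le_exp (4 * u)
    have h2 : Real.exp (-(4 * u)) * Real.exp (4 * u) = 1 := by
      rw [← Real.exp_add]
      simp
    have h3 : Real.exp (-(4 * u)) * (4 * u + 1) ≤ 1 := by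
      have h4 := mul_le_mul_of_nonneg_left h1 (Real.exp_pos (-(4 * u))).le
      rwa [h2] at h4
    nlinarith
  have e4 : 0 ≤ (1 - Real.exp (-(4 * u))) / 4 := by
    have : Real.exp (-(4 * u)) ≤ 1 := Real.exp_le_one_iff.2 (by linarith)
    linarith
  have e5 : Real.exp (-4 * t) ≤ 1 := Real.exp_le_one_iff.2 (by linarith)
  have e6 : 0 < Real.exp (-4 * t) := Real.exp_pos _
  rw [e1]
  refine ⟨?_, ?_, ?_, by positivity⟩
  · have := mul_le_mul_of_nonneg_left e3 e6.le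
    linarith
  · exact mul_le_mul_of_nonneg_left e2 e6.le
  · calc Real.exp (-4 * t) * ((1 - Real.exp (-(4 * u))) / 4)
        ≤ 1 * ((1 - Real.exp (-(4 * u))) / 4) := mul_le_mul_of_nonneg_right e5 e4
      _ ≤ u := by linarith

theorem sqrt_exp4 (t : ℝ) : Real.sqrt (Real.exp (-4 * t)) = Real.exp (-2 * t) := by
  have : Real.exp (-4 * t) = Real.exp (-2 * t) ^ 2 := by
    rw [← Real.exp_nat_mul]
    congr 1
    push_cast
    ring
  rw [this, Real.sqrt_sq (Real.exp_pos _).le]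

/-- Real inequalities for the first estimate. -/
theorem fin_i {V : Type} [NormedAddCommGroup V] [NormedSpace ℝ V] (y x : V) (t T D : ℝ)
    (h0 : 0 ≤ t) (h : t ≤ T) (h1 : T - t ≤ 1) (hD : 0 ≤ D) (hx : ‖x‖ = Real.exp (-2 * T))
    (hy : ‖Real.exp (-2 * t) • y - x‖ ≤ D * Real.sqrt (T - t)) :
    ‖y - (Real.exp (-2 * T))⁻¹ • x‖ ≤ (Real.exp (2 * T) * D + 2) * Real.sqrt (T - t) := by
  set r : ℝ := Real.exp (-2 * t) with hr
  set rT : ℝ := Real.exp (-2 * T) with hrT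
  have hr0 : 0 < r := Real.exp_pos _
  have hrT0 : 0 < rT := Real.exp_pos _
  have hu0 : 0 ≤ T - t := by linarith
  have hsq : T - t ≤ Real.sqrt (T - t) := by
    refine Real.le_sqrt_of_sq_le ?_
    nlinarith
  have e1 : y - rT⁻¹ • x = r⁻¹ • (r • y - x) + (r⁻¹ - rT⁻¹) • x := by
    rw [smul_sub, smul_smul, inv_mul_cancel₀ hr0.ne', one_smul, sub_smul]
    abel
  have hrinv : r⁻¹ ≤ Real.exp (2 * T) := by
    rw [hr, ← Real.exp_neg]
    exact Real.exp_le_exp.2 (by linarith)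
  have e2 : ‖r⁻¹ • (r • y - x)‖ ≤ Real.exp (2 * T) * (D * Real.sqrt (T - t)) := by
    rw [norm_smul, Real.norm_of_nonneg (by positivity)]
    exact mul_le_mul hrinv hy (norm_nonneg _) (Real.exp_pos _).le
  have e3 : ‖(r⁻¹ - rT⁻¹) • x‖ ≤ 2 * Real.sqrt (T - t) := by
    rw [norm_smul, hx, Real.norm_eq_abs, abs_of_nonpos]
    · have h2 : -(r⁻¹ - rT⁻¹) * rT = 1 - r⁻¹ * rT := by
        field_simp
        ring
      rw [h2]
      have h3 : r⁻¹ * rT = Real.exp (-(2 * (T - t))) := by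
        rw [hr, hrT, ← Real.exp_neg, ← Real.exp_add]
        congr 1
        ring
      rw [h3]
      have := Real.add_one_le_exp (-(2 * (T - t)))
      linarith
    · have : r⁻¹ ≤ rT⁻¹ := by
        apply inv_anti₀ hrT0
        exact Real.exp_le_exp.2 (by linarith)
      linarith
  rw [e1]
  refine (norm_add_le _ _).trans ?_
  calc _ ≤ Real.exp (2 * T) * (D * Real.sqrt (T - t)) + 2 * Real.sqrt (T - t) :=
        add_le_add e2 e3
    _ = (Real.exp (2 * T) * D + 2) * Real.sqrt (T - t) := by ring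

theorem hFIN (hDAT : StDAT) (hTY3 : StTY3) (hLMF : StLMF) (hCNV : StCNV) (hCT0 : StCT0)
    (hHSQ : StHSQ) : StFIN := by
  intro N F T hT hS hP hunb
  haveI hne : Nonempty S2 := (NormedSpace.sphere_nonempty.2 zero_le_one).to_subtype
  haveI hconn : ConnectedSpace S2 := by
    refine isConnected_iff_connectedSpace.1 (isConnected_sphere ?_ 0 zero_le_one)
    rw [← Module.finrank_eq_rank]
    simp
  set TE : ℝ := sgT T with hTE
  have hIS : IS TE = Ico 0 T := IS_sgT T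
  have hTE0 : 0 < TE := by
    rw [hTE, ← sgT_zero, sgT_lt]
    exact hT
  have hTE4 : TE ≤ 1 / 4 := by
    rw [hTE]
    unfold sgT
    have := Real.exp_pos (-4 * T)
    linarith
  have hS' : SMCF 2 (IS TE) F := by
    rw [hIS]
    exact hS
  obtain ⟨c, χ, δ, hD, -⟩ := hDAT N F TE hTE0 hTE4 hS' hP
  obtain ⟨-, hC⟩ := hCNV N S2 F TE hTE0 hTE4 hS'
  obtain ⟨hfr, hcont⟩ := hCT0 N S2 (Ico 0 T) F hS
  obtain ⟨-, -, hAc, -⟩ := hcont (uniqueDiffOn_Ico 0 T)
  -- pointwise facts in the sphere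
  have hsph : ∀ t ∈ Ico 0 T, ∀ q,
      ‖HS (n := 2) F q t‖ ^ 2 = ‖HH (n := 2) F q t‖ ^ 2 - 4 ∧
      hS2 (n := 2) F q t = AA (n := 2) F q t - 2 ∧ 0 ≤ hS2 (n := 2) F q t := by
    intro t ht q
    obtain ⟨hI, hE⟩ := hfr t ht
    obtain ⟨-, -, a3, a4, a5, -⟩ := hHSQ N S2 univ (fun q (_ : ℝ) => F q t) hI 0 (mem_univ _)
      (fun q => hS.sph q t ht) q
    obtain ⟨b1, b2, -, b4, b5⟩ := hE q 0
    rw [b4, b1] at a3
    rw [b5, b2] at a4
    rw [b5] at a5
    exact ⟨a3, a4, a5⟩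
  -- pointwise facts of the rescaled flow
  have hpt : ∀ t ∈ Ico 0 T, sgT t ∈ Ico 0 TE ∧ ∀ q,
      ‖FEs F q (sgT t)‖ ^ 2 = Real.exp (-4 * t) ∧
      FEs F q (sgT t) = Real.exp (-2 * t) • F q t ∧
      ‖HH (n := 2) F q t‖ ^ 2 = Real.exp (-4 * t) * YF (FEs F) q (sgT t) ∧
      AA (n := 2) F q t = Real.exp (-4 * t) * AA (n := 2) (FEs F) q (sgT t) := by
    intro t ht
    have hmem : sgT t ∈ Ico 0 TE := by
      refine ⟨?_, sgT_lt.2 ht.2⟩
      rcases eq_or_lt_of_le ht.1 with h | h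
      · rw [← h, sgT_zero]
      · rw [← sgT_zero]
        exact (sgT_lt.2 h).le
    refine ⟨hmem, fun q => ?_⟩
    obtain ⟨-, -, h3⟩ := hC (sgT t) hmem
    obtain ⟨a1, a2, a3, -⟩ := h3 q
    rw [one_sub_sgT] at a1 a2 a3
    rw [tmS_sgT] at a2 a3
    rw [sqrt_exp4] at a2
    have hpos : 0 < Real.exp (-4 * t) := Real.exp_pos _
    have hpos2 : 0 < Real.exp (-2 * t) := Real.exp_pos _
    have hee : Real.exp (-4 * t) = Real.exp (-2 * t) ^ 2 := by
      rw [← Real.exp_nat_mul]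
      congr 1
      push_cast
      ring
    refine ⟨a1, ?_, ?_, ?_⟩
    · unfold FEs
      rw [one_sub_sgT, tmS_sgT, sqrt_exp4]
    · unfold YF
      rw [a2, norm_smul, mul_pow, Real.norm_of_nonneg (by positivity), hee]
      field_simp
    · rw [a3]
      field_simp
  -- unbounded
  have hU : UnbT TE (FEs F) := by
    intro C τ₀ hτ₀
    set τ₁ : ℝ := max τ₀ (TE / 2) with hτ₁
    have hτ₁m : τ₁ ∈ Ico 0 TE := by
      refine ⟨le_trans (by positivity) (le_max_right _ _), max_lt hτ₀ (by linarith)⟩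
    obtain ⟨h1, h2, -⟩ := hC τ₁ hτ₁m
    rw [hIS] at h1
    set t₁ : ℝ := tmS τ₁ with ht₁
    have hcomp : IsCompact ((univ : Set S2) ×ˢ Icc 0 t₁) := isCompact_univ.prod isCompact_Icc
    have hsub : (univ : Set S2) ×ˢ Icc 0 t₁ ⊆ univ ×ˢ Ico 0 T := by
      intro z hz
      exact ⟨mem_univ _, hz.2.1, lt_of_le_of_lt hz.2.2 h1.2⟩
    obtain ⟨B, hB⟩ := hcomp.exists_bound_of_continuousOn (hAc.mono hsub)
    obtain ⟨t, ht, q, hq⟩ := hunb (max B C)
    obtain ⟨-, s2, s3⟩ := hsph t ht q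
    have htt : t₁ < t := by
      by_contra hcon
      push Not at hcon
      have h3 := hB (q, t) ⟨mem_univ _, ht.1, hcon⟩
      rw [Real.norm_eq_abs] at h3
      have h4 := (abs_le.1 h3).2
      have h5 : B < hS2 (n := 2) F q t := lt_of_le_of_lt (le_max_left _ _) hq
      change AA (n := 2) F q t ≤ B at h4
      linarith
    obtain ⟨hm, hq'⟩ := hpt t ht
    obtain ⟨-, -, p3, p4⟩ := hq' q
    have hτt : τ₁ < sgT t := by
      rw [← h2]
      exact sgT_lt.2 htt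
    have hτ0 : 0 < sgT t := lt_of_le_of_lt hτ₁m.1 hτt
    refine ⟨sgT t, ⟨hτ0, hm.2⟩, lt_of_le_of_lt (le_max_left _ _) hτt, q, ?_⟩
    have hth := hD.pi.th1 q (sgT t) ⟨hτ0, hm.2⟩
    have hth' : 2 * AA (n := 2) (FEs F) q (sgT t) - YF (FEs F) q (sgT t) ≤
        2 / 3 * YF (FEs F) q (sgT t) := hth
    have hA0 : 0 ≤ AA (n := 2) (FEs F) q (sgT t) := by
      have hpos : 0 < Real.exp (-4 * t) := Real.exp_pos _
      have h5 : 0 ≤ AA (n := 2) F q t := by linarith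
      rw [p4] at h5
      exact nonneg_of_mul_nonneg_right h5 hpos
    have hAle : AA (n := 2) F q t ≤ AA (n := 2) (FEs F) q (sgT t) := by
      rw [p4]
      have h6 : Real.exp (-4 * t) ≤ 1 := Real.exp_le_one_iff.2 (by linarith [ht.1])
      have := mul_le_mul_of_nonneg_right h6 hA0
      linarith
    have h7 : C < hS2 (n := 2) F q t := lt_of_le_of_lt (le_max_right _ _) hq
    linarith
  obtain ⟨C, α, τs, hC0, hα0, hτs, hrate⟩ := hTY3 N S2 TE (FEs F) c χ δ hD hU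
  obtain ⟨x, C', hC'0, hlim⟩ := hLMF N S2 TE (FEs F) c χ δ hD C α τs hC0 hα0 hτs
    (fun t ht => ⟨(hrate t ht).2.1, (hrate t ht).2.2.1, fun q => ((hrate t ht).2.2.2 q).2⟩)
  -- the starting time
  have hτsm : τs ∈ Ico 0 TE := ⟨hτs.1.le, hτs.2⟩
  obtain ⟨hts1, hts2, -⟩ := hC τs hτsm
  rw [hIS] at hts1
  set ts : ℝ := max (tmS τs) (T - 1) with hts
  have hts0 : 0 ≤ ts := le_trans hts1.1 (le_max_left _ _)
  have htsT : ts < T := max_lt hts1.2 (by linarith)
  have hmem : ∀ t ∈ Ico ts T, t ∈ Ico 0 T ∧ sgT t ∈ Ico τs TE ∧ 0 < T - t ∧ T - t ≤ 1 := by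
    intro t ht
    have h1 : T - 1 ≤ ts := le_max_right _ _
    have h2 : tmS τs ≤ t := le_trans (le_max_left _ _) ht.1
    refine ⟨⟨hts0.trans ht.1, ht.2⟩, ⟨?_, sgT_lt.2 ht.2⟩, by linarith [ht.2],
      by linarith [ht.1]⟩
    rw [← hts2]
    rcases eq_or_lt_of_le h2 with h | h
    · rw [← h]
    · exact (sgT_lt.2 h).le
  -- distance to the limit
  have hdist : ∀ t ∈ Ico ts T, ∀ q,
      ‖Real.exp (-2 * t) • F q t - x‖ ≤ (2 + C') * Real.sqrt (T - t) := by
    intro t ht q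
    obtain ⟨h1, h2, h3, h4⟩ := hmem t ht
    obtain ⟨-, -, d3, d4⟩ := fin_d t T h1.1 h1.2.le
    have h5 := hlim (sgT t) h2 q
    rw [((hpt t h1).2 q).2.1] at h5
    refine h5.trans ?_
    have h6 : Real.sqrt (TE - sgT t) ≤ Real.sqrt (T - t) := Real.sqrt_le_sqrt d3
    have h7 : (TE - sgT t) ^ (α + 1 / 2) ≤ Real.sqrt (T - t) := by
      calc (TE - sgT t) ^ (α + 1 / 2) ≤ (T - t) ^ (α + 1 / 2) :=
            Real.rpow_le_rpow d4 d3 (by linarith)
        _ ≤ (T - t) ^ (1 / 2 : ℝ) := Real.rpow_le_rpow_of_exponent_ge h3 h4 (by linarith)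
        _ = Real.sqrt (T - t) := by rw [Real.sqrt_eq_rpow]
    have h8 := mul_le_mul_of_nonneg_left h7 hC'0.le
    calc 2 * Real.sqrt (TE - sgT t) + C' * (TE - sgT t) ^ (α + 1 / 2)
        ≤ 2 * Real.sqrt (T - t) + C' * Real.sqrt (T - t) := by linarith
      _ = (2 + C') * Real.sqrt (T - t) := by ring
  -- the norm of the limit
  have hxn : ‖x‖ = Real.exp (-2 * T) := by
    obtain ⟨q⟩ := hne
    have h1 : Tendsto (fun t => Real.exp (-2 * t)) (𝓝[<] T) (𝓝 (Real.exp (-2 * T))) := by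
      have : Continuous (fun t : ℝ => Real.exp (-2 * t)) := by fun_prop
      exact (this.tendsto T).mono_left nhdsWithin_le_nhds
    have h2 : Tendsto (fun t => (2 + C') * Real.sqrt (T - t)) (𝓝[<] T) (𝓝 0) := by
      have h3 : Continuous (fun t : ℝ => (2 + C') * Real.sqrt (T - t)) := by fun_prop
      have h4 := (h3.tendsto T).mono_left (nhdsWithin_le_nhds (s := Iio T))
      simpa using h4
    have h5 : Tendsto (fun t => ‖Real.exp (-2 * t) • F q t‖) (𝓝[<] T) (𝓝 ‖x‖) := by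
      refine Tendsto.norm ?_
      rw [tendsto_iff_norm_sub_tendsto_zero]
      refine squeeze_zero' (Filter.Eventually.of_forall fun t => norm_nonneg _) ?_ h2
      filter_upwards [Ico_mem_nhdsLT htsT] with t ht
      exact hdist t ht q
    have h6 : (fun t => Real.exp (-2 * t)) =ᶠ[𝓝[<] T]
        fun t => ‖Real.exp (-2 * t) • F q t‖ := by
      filter_upwards [Ico_mem_nhdsLT htsT] with t ht
      rw [norm_smul, hS.sph q t (hmem t ht).1, mul_one, Real.norm_of_nonneg (Real.exp_pos _).le]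
    exact tendsto_nhds_unique h5 (h1.congr' h6)
  have hxpos : 0 < Real.exp (-2 * T) := Real.exp_pos _
  refine ⟨(Real.exp (-2 * T))⁻¹ • x,
    (Real.exp (2 * T) * (2 + C') + 2) + ((1 + 4) * C + 4), min α 1, ts, ?_, lt_min hα0 one_pos,
    ⟨hts0, htsT⟩, fun t ht q => ?_⟩
  · rw [norm_smul, hxn, Real.norm_of_nonneg (by positivity), inv_mul_cancel₀ hxpos.ne']
  obtain ⟨h1, h2, h3, h4⟩ := hmem t ht
  obtain ⟨d1, d2, d3, d4⟩ := fin_d t T h1.1 h1.2.le
  have hA : 0 ≤ Real.exp (2 * T) * (2 + C') + 2 := by positivity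
  have hB : 0 ≤ (1 + 4) * C + 4 := by positivity
  obtain ⟨s1, s2, s3⟩ := hsph t h1 q
  obtain ⟨p1, p2, p3, p4⟩ := (hpt t h1).2 q
  obtain ⟨r1, r2⟩ := (hrate (sgT t) h2).2.2.2 q
  have hτI : sgT t ∈ Ioo 0 TE := ⟨lt_of_lt_of_le hτs.1 h2.1, h2.2⟩
  have hy4 := hD.pi.y4 q (sgT t) hτI
  have hth0 := hD.pi.th0 q (sgT t) hτI
  -- powers
  have hpa : (TE - sgT t) ^ α ≤ (T - t) ^ (min α 1) := by
    calc (TE - sgT t) ^ α ≤ (T - t) ^ α := Real.rpow_le_rpow d4 d3 hα0.le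
      _ ≤ (T - t) ^ (min α 1) :=
        Real.rpow_le_rpow_of_exponent_ge h3 h4 (min_le_left _ _)
  have hp1 : T - t ≤ (T - t) ^ (min α 1) := by
    calc T - t = (T - t) ^ (1 : ℝ) := (Real.rpow_one _).symm
      _ ≤ (T - t) ^ (min α 1) := Real.rpow_le_rpow_of_exponent_ge h3 h4 (min_le_right _ _)
  set P : ℝ := (T - t) ^ (min α 1) with hPdef
  have hP0 : 0 ≤ P := by positivity
  set K : ℝ := C * (TE - sgT t) ^ α with hK
  have hKP : K ≤ C * P := mul_le_mul_of_nonneg_left hpa hC0.le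
  have hK0 : 0 ≤ K := by positivity
  set Y : ℝ := YF (FEs F) q (sgT t) with hY
  set Θ : ℝ := thF 2 (FEs F) q (sgT t) with hΘ
  have hΘdef : Θ = 2 * AA (n := 2) (FEs F) q (sgT t) - Y := rfl
  set d : ℝ := TE - sgT t with hd
  have hu1 : (1 + 4 * (T - t)) ≤ 1 + 4 := by linarith
  refine ⟨?_, ?_, ?_⟩
  · have h5 := fin_i (F q t) x t T (2 + C') h1.1 h1.2.le h4 (by linarith) hxn (hdist t ht q)
    refine h5.trans ?_
    refine mul_le_mul_of_nonneg_right ?_ (Real.sqrt_nonneg _)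
    linarith
  · have e1 : (T - t) * (hS2 (n := 2) F q t - ‖HS (n := 2) F q t‖ ^ 2 / 2) =
        (Real.exp (-4 * t) * (T - t)) * Θ / 2 := by
      rw [s1, s2, p3, p4, hΘdef]
      ring
    rw [e1]
    have e2 : (Real.exp (-4 * t) * (T - t)) * Θ ≤ ((1 + 4 * (T - t)) * d) * Θ :=
      mul_le_mul_of_nonneg_right d1 hth0
    have e3 : ((1 + 4 * (T - t)) * d) * Θ ≤ (1 + 4 * (T - t)) * K := by
      have := mul_le_mul_of_nonneg_left r1 (show 0 ≤ 1 + 4 * (T - t) by linarith)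
      linarith
    have e4 : (1 + 4 * (T - t)) * K ≤ (1 + 4) * (C * P) :=
      mul_le_mul hu1 hKP hK0 (by norm_num)
    have e5 : 0 ≤ (Real.exp (2 * T) * (2 + C') + 2) * P := mul_nonneg hA hP0
    nlinarith [mul_nonneg hC0.le hP0]
  · have e1 : (T - t) * ‖HS (n := 2) F q t‖ ^ 2 =
        (Real.exp (-4 * t) * (T - t)) * Y - 4 * (T - t) := by
      rw [s1, p3]
      ring
    rw [e1]
    have hYn : 0 ≤ Y := by linarith
    have e2 : (Real.exp (-4 * t) * (T - t)) * Y ≤ ((1 + 4 * (T - t)) * d) * Y :=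
      mul_le_mul_of_nonneg_right d1 hYn
    have e3 : d * Y ≤ (Real.exp (-4 * t) * (T - t)) * Y := mul_le_mul_of_nonneg_right d2 hYn
    obtain ⟨r3, r4⟩ := abs_le.1 r2
    have e4 : ((1 + 4 * (T - t)) * d) * Y ≤ (1 + 4 * (T - t)) * (1 + K) := by
      have := mul_le_mul_of_nonneg_left (show d * Y ≤ 1 + K by linarith)
        (show 0 ≤ 1 + 4 * (T - t) by linarith)
      linarith
    have e5 : (1 + 4 * (T - t)) * K ≤ (1 + 4) * (C * P) :=
      mul_le_mul hu1 hKP hK0 (by norm_num)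
    have e6 : 0 ≤ (Real.exp (2 * T) * (2 + C') + 2) * P := mul_nonneg hA hP0
    have e7 := mul_nonneg hC0.le hP0
    rw [abs_le]
    constructor
    · nlinarith
    · nlinarith

end Helper7.MS
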